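import Pool.Agent.MWH.StmtsC

/-!
# MWH rows VP1, VP2 (helper67): canonical edges for a light letter of degree two
-/

set_option autoImplicit false

namespace Pool.Agent.MWH.H67

open Pool.Agent.Helper14_MV Pool.Agent.Helper2_MV Pool.Agent.MVO Pool.Agent.MWL Pool.Agent.MWS
  Pool.Agent.MWH

/-- four thresholds -/
def gm (u v w : ℕ) : ℕ → ℕ := fun j => if j < u then 0 else if j < v then 1 else if j < w then 2 else 3

theorem gm_mono {u v w : ℕ} (huv : u ≤ v) (hvw : v ≤ w) {j j' : ℕ} (h : j ≤ j') :
    gm u v w j ≤ gm u v w j' := by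
  unfold gm
  split_ifs <;> omega

theorem gm_le (u v w j : ℕ) : gm u v w j ≤ 3 := by
  unfold gm
  split_ifs <;> omega

theorem gm0 {u v w : ℕ} (huv : u ≤ v) (hvw : v ≤ w) {j : ℕ} : gm u v w j = 0 ↔ j < u := by
  unfold gm
  split_ifs <;> simp <;> omega

theorem gm1 {u v w : ℕ} (huv : u ≤ v) (hvw : v ≤ w) {j : ℕ} :
    gm u v w j = 1 ↔ (u ≤ j ∧ j < v) := by
  unfold gm
  split_ifs <;> simp <;> omega

theorem gm2 {u v w : ℕ} (huv : u ≤ v) (hvw : v ≤ w) {j : ℕ} :
    gm u v w j = 2 ↔ (v ≤ j ∧ j < w) := by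
  unfold gm
  split_ifs <;> simp <;> omega

theorem gm3 {u v w : ℕ} (huv : u ≤ v) (hvw : v ≤ w) {j : ℕ} : gm u v w j = 3 ↔ w ≤ j := by
  unfold gm
  split_ifs <;> simp <;> omega

/-- four values -/
def fm (x0 x1 x2 x3 : ℕ) : ℕ → ℕ := fun j => if j = 0 then x0 else if j = 1 then x1 else
  if j = 2 then x2 else x3

theorem vd_2 : Vd 3 (vc [0, 1, 1, 0]) (vc [1, 0, 1, 2]) 2 where
  ik := by decide
  ai := by decide
  bi := by decide
  un := by
    intro j hj hj2
    have h : j = 0 ∨ j = 1 ∨ j = 3 := by omega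
    rcases h with rfl | rfl | rfl
    · exact Or.inl rfl
    · exact Or.inr rfl
    · exact Or.inl rfl
  da := by decide
  db := by decide

theorem vd_1 : Vd 3 (vc [1, 0, 1, 0]) (vc [0, 1, 1, 2]) 2 where
  ik := by decide
  ai := by decide
  bi := by decide
  un := by
    intro j hj hj2
    have h : j = 0 ∨ j = 1 ∨ j = 3 := by omega
    rcases h with rfl | rfl | rfl
    · exact Or.inr rfl
    · exact Or.inl rfl
    · exact Or.inl rfl
  da := by decide
  db := by decide

theorem vs_xy (a b : ℕ → ℕ) (i : ℕ) : Vs a b i Stt.xy := fun h => by cases h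

theorem vs_yx (a b : ℕ → ℕ) (i : ℕ) : Vs a b i Stt.yx := fun h => by cases h

theorem vp2 (hps : Ps0Stmt) (hpin : PinStmt) : Vp2Stmt := by
  intro β θ hβ hle k a b i p hV hL hbi hq hm
  obtain ⟨q, hqp, hbq, hb0⟩ := hq
  obtain ⟨m, him, hmk, hbm⟩ := hm
  have hpi : p < i := hL.uv
  have haz : ∀ j ≤ k, j ≠ p → j ≠ i → a j = 0 := hL.az
  have c1 : p ≤ i := hpi.le
  have c2 : i ≤ i + 1 := Nat.le_succ i
  have g2i : gm p i (i + 1) i = 2 := (gm2 c1 c2).2 ⟨le_rfl, Nat.lt_succ_self i⟩
  constructor
  · intro h
    have h1 := hps β θ hβ hle k 3 (gm p i (i + 1)) a b (vc [0, 1, 1, 0]) (vc [1, 0, 1, 2]) i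
      ⟨fun j j' hj _ => gm_mono c1 c2 hj, fun j _ => gm_le _ _ _ _⟩ hV (by rw [g2i]; exact vd_2)
      (by
        intro j' hj'
        have hc : j' = 0 ∨ j' = 1 ∨ j' = 2 ∨ j' = 3 := by omega
        rcases hc with rfl | rfl | rfl | rfl
        · refine Or.inr (Or.inr fun j hj hg => ?_)
          rw [gm0 c1 c2] at hg
          exact haz j hj (by omega) (by omega)
        · refine Or.inr (Or.inl ⟨rfl, p, by rw [hL.au], fun j hj hg hne => ?_⟩)
          rw [gm1 c1 c2] at hg
          exact haz j hj hne (by omega)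
        · refine Or.inr (Or.inl ⟨rfl, i, by rw [hL.av], fun j hj hg hne => ?_⟩)
          rw [gm2 c1 c2] at hg
          omega
        · refine Or.inr (Or.inr fun j hj hg => ?_)
          rw [gm3 c1 c2] at hg
          exact haz j hj (by omega) (by omega))
      (by
        intro j' hj'
        have hc : j' = 0 ∨ j' = 1 ∨ j' = 2 ∨ j' = 3 := by omega
        rcases hc with rfl | rfl | rfl | rfl
        · refine Or.inr (Or.inl ⟨rfl, q, by rw [hbq], fun j hj hg hne => ?_⟩)
          rw [gm0 c1 c2] at hg
          exact hb0 j (by omega) hne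
        · refine Or.inr (Or.inr fun j hj hg => ?_)
          rw [gm1 c1 c2] at hg
          exact hb0 j hg.2 (by omega)
        · refine Or.inr (Or.inl ⟨rfl, i, by rw [hbi], fun j hj hg hne => ?_⟩)
          rw [gm2 c1 c2] at hg
          omega
        · exact Or.inl (by decide))
      (by
        intro j hj hg hne
        rw [g2i, gm2 c1 c2] at hg
        omega)
      (by
        rw [g2i, hL.av]
        exact ⟨fun _ => rfl, fun _ => rfl⟩)
      (by
        rw [g2i, hbi]
        exact ⟨fun _ => rfl, fun _ => rfl⟩)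
      Stt.xy Stt.yx (vs_xy _ _ _) (vs_yx _ _ _) h
    rw [g2i] at h1
    exact h1
  · intro h
    exact hpin β θ hβ hle 3 k (fm q p i m) (vc [0, 1, 1, 0]) (vc [1, 0, 1, 2]) a b 2
      (by
        intro j hj
        have hc : j = 0 ∨ j = 1 ∨ j = 2 := by omega
        rcases hc with rfl | rfl | rfl
        · exact hqp
        · exact hpi
        · exact him)
      hmk vd_2 hV
      (by
        intro j hj
        have hc : j = 0 ∨ j = 1 ∨ j = 2 ∨ j = 3 := by omega
        rcases hc with rfl | rfl | rfl | rfl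
        · refine ⟨fun h => absurd rfl h, fun h => absurd h (by decide), fun _ => ?_,
            fun h => absurd h (by decide)⟩
          show b q ≠ 0
          omega
        · refine ⟨fun _ => ?_, fun h => absurd h (by decide), fun h => absurd rfl h,
            fun h => absurd h (by decide)⟩
          show a p ≠ 0
          rw [hL.au]
          decide
        · refine ⟨fun _ => hV.ai, fun h => absurd h (by decide), fun _ => hV.bi,
            fun h => absurd h (by decide)⟩
        · refine ⟨fun h => absurd rfl h, fun h => absurd h (by decide), fun _ => ?_,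
            fun _ => hbm⟩
          show b m ≠ 0
          omega)
      (by
        show (1 = 1 ↔ a i = 1)
        rw [hL.av])
      (by
        show (1 = 1 ↔ b i = 1)
        rw [hbi])
      Stt.xy Stt.yx (vs_xy _ _ _) (vs_yx _ _ _) h

theorem vp1 (hps : Ps0Stmt) (hpin : PinStmt) : Vp1Stmt := by
  intro β θ hβ hle k a b i p hV hL hbi hq hm
  obtain ⟨q, hpq, hqi, hbq, hb0⟩ := hq
  obtain ⟨m, him, hmk, hbm⟩ := hm
  have hpi : p < i := hL.uv
  have haz : ∀ j ≤ k, j ≠ p → j ≠ i → a j = 0 := hL.az
  have c1 : q ≤ i := hqi.le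
  have c2 : i ≤ i + 1 := Nat.le_succ i
  have g2i : gm q i (i + 1) i = 2 := (gm2 c1 c2).2 ⟨le_rfl, Nat.lt_succ_self i⟩
  constructor
  · intro h
    have h1 := hps β θ hβ hle k 3 (gm q i (i + 1)) a b (vc [1, 0, 1, 0]) (vc [0, 1, 1, 2]) i
      ⟨fun j j' hj _ => gm_mono c1 c2 hj, fun j _ => gm_le _ _ _ _⟩ hV (by rw [g2i]; exact vd_1)
      (by
        intro j' hj'
        have hc : j' = 0 ∨ j' = 1 ∨ j' = 2 ∨ j' = 3 := by omega
        rcases hc with rfl | rfl | rfl | rfl
        · refine Or.inr (Or.inl ⟨rfl, p, by rw [hL.au], fun j hj hg hne => ?_⟩)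
          rw [gm0 c1 c2] at hg
          exact haz j hj hne (by omega)
        · refine Or.inr (Or.inr fun j hj hg => ?_)
          rw [gm1 c1 c2] at hg
          exact haz j hj (by omega) (by omega)
        · refine Or.inr (Or.inl ⟨rfl, i, by rw [hL.av], fun j hj hg hne => ?_⟩)
          rw [gm2 c1 c2] at hg
          omega
        · refine Or.inr (Or.inr fun j hj hg => ?_)
          rw [gm3 c1 c2] at hg
          exact haz j hj (by omega) (by omega))
      (by
        intro j' hj'
        have hc : j' = 0 ∨ j' = 1 ∨ j' = 2 ∨ j' = 3 := by omega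
        rcases hc with rfl | rfl | rfl | rfl
        · refine Or.inr (Or.inr fun j hj hg => ?_)
          rw [gm0 c1 c2] at hg
          exact hb0 j (by omega) (by omega)
        · refine Or.inr (Or.inl ⟨rfl, q, by rw [hbq], fun j hj hg hne => ?_⟩)
          rw [gm1 c1 c2] at hg
          exact hb0 j hg.2 hne
        · refine Or.inr (Or.inl ⟨rfl, i, by rw [hbi], fun j hj hg hne => ?_⟩)
          rw [gm2 c1 c2] at hg
          omega
        · exact Or.inl (by decide))
      (by
        intro j hj hg hne
        rw [g2i, gm2 c1 c2] at hg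
        omega)
      (by
        rw [g2i, hL.av]
        exact ⟨fun _ => rfl, fun _ => rfl⟩)
      (by
        rw [g2i, hbi]
        exact ⟨fun _ => rfl, fun _ => rfl⟩)
      Stt.xy Stt.yx (vs_xy _ _ _) (vs_yx _ _ _) h
    rw [g2i] at h1
    exact h1
  · intro h
    exact hpin β θ hβ hle 3 k (fm p q i m) (vc [1, 0, 1, 0]) (vc [0, 1, 1, 2]) a b 2
      (by
        intro j hj
        have hc : j = 0 ∨ j = 1 ∨ j = 2 := by omega
        rcases hc with rfl | rfl | rfl
        · exact hpq
        · exact hqi
        · exact him)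
      hmk vd_1 hV
      (by
        intro j hj
        have hc : j = 0 ∨ j = 1 ∨ j = 2 ∨ j = 3 := by omega
        rcases hc with rfl | rfl | rfl | rfl
        · refine ⟨fun _ => ?_, fun h => absurd h (by decide), fun h => absurd rfl h,
            fun h => absurd h (by decide)⟩
          show a p ≠ 0
          rw [hL.au]
          decide
        · refine ⟨fun h => absurd rfl h, fun h => absurd h (by decide), fun _ => ?_,
            fun h => absurd h (by decide)⟩
          show b q ≠ 0
          omega
        · refine ⟨fun _ => hV.ai, fun h => absurd h (by decide), fun _ => hV.bi,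
            fun h => absurd h (by decide)⟩
        · refine ⟨fun h => absurd rfl h, fun h => absurd h (by decide), fun _ => ?_,
            fun _ => hbm⟩
          show b m ≠ 0
          omega)
      (by
        show (1 = 1 ↔ a i = 1)
        rw [hL.av])
      (by
        show (1 = 1 ↔ b i = 1)
        rw [hbi])
      Stt.xy Stt.yx (vs_xy _ _ _) (vs_yx _ _ _) h

end Pool.Agent.MWH.H67
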